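import Pool.Agent.H21.ASY.Stmts

/-!
# ASY, row EUL: the singular series as an Euler product
-/

set_option autoImplicit false

namespace Pool.ASY

open Finset MeasureTheory Pool.Agent.H98.ABCR Pool.SHA
open scoped ArithmeticFunction.Moebius

namespace EULAux

/-- the multiplicative part of `cf` -/
noncomputable def ffE (d : ℕ) : ℝ :=
  if Sqf d then 3 ^ om d * (1 / (d : ℝ) * ∏ p ∈ d.primeFactors, (1 + 1 / (p : ℝ))⁻¹) * HH d else 0

theorem cf_eq (d : ℕ) : cf d = kap0 * ffE d := by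
  unfold cf ffE kap
  split_ifs with h
  · ring
  · ring

theorem sqf_one : Sqf 1 := by
  refine ⟨one_pos, ?_⟩
  intro p hp h
  exact absurd (Nat.dvd_one.mp h) hp.one_lt.ne'

theorem not_sqf_zero : ¬ Sqf 0 := fun h => absurd h.1 (lt_irrefl 0)

theorem ffE_zero : ffE 0 = 0 := by
  unfold ffE
  rw [if_neg not_sqf_zero]

theorem ffE_one (hH : HH 1 = 1) : ffE 1 = 1 := by
  unfold ffE
  rw [if_pos sqf_one, hH]
  simp [om]

theorem sqf_mul {m n : ℕ} (h : m.Coprime n) (hm : 0 < m) (hn : 0 < n) :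
    Sqf (m * n) ↔ Sqf m ∧ Sqf n := by
  constructor
  · rintro ⟨_, h2⟩
    constructor
    · refine ⟨hm, fun p hp hd => ?_⟩
      have h3 := h2 p hp (hd.mul_right n)
      have hc : Nat.Coprime (p ^ 2) n := Nat.Coprime.pow_left 2 (Nat.Coprime.coprime_dvd_left hd h)
      exact hc.dvd_of_dvd_mul_right h3
    · refine ⟨hn, fun p hp hd => ?_⟩
      have h3 := h2 p hp (hd.mul_left m)
      have hc : Nat.Coprime (p ^ 2) m :=
        Nat.Coprime.pow_left 2 (Nat.Coprime.coprime_dvd_left hd h.symm)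
      exact hc.dvd_of_dvd_mul_left h3
  · rintro ⟨⟨_, h1⟩, ⟨_, h2⟩⟩
    refine ⟨Nat.mul_pos hm hn, fun p hp hd => ?_⟩
    rcases (hp.dvd_mul).mp hd with h3 | h3
    · exact (h1 p hp h3).mul_right n
    · exact (h2 p hp h3).mul_left m

theorem ffE_mul (hH : ∀ m n : ℕ, m.Coprime n → HH (m * n) = HH m * HH n)
    {m n : ℕ} (h : m.Coprime n) : ffE (m * n) = ffE m * ffE n := by
  rcases Nat.eq_zero_or_pos m with rfl | hm
  · have : n = 1 := by simpa using h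
    subst this
    simp [ffE_zero]
  rcases Nat.eq_zero_or_pos n with rfl | hn
  · have : m = 1 := by simpa using h
    subst this
    simp [ffE_zero]
  unfold ffE
  by_cases h1 : Sqf m
  · by_cases h2 : Sqf n
    · rw [if_pos ((sqf_mul h hm hn).mpr ⟨h1, h2⟩), if_pos h1, if_pos h2, hH m n h]
      have e1 : om (m * n) = om m + om n := by
        unfold om
        rw [h.primeFactors_mul, Finset.card_union_of_disjoint h.disjoint_primeFactors]
      have e2 : ∏ p ∈ (m * n).primeFactors, (1 + 1 / (p : ℝ))⁻¹ =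
          (∏ p ∈ m.primeFactors, (1 + 1 / (p : ℝ))⁻¹) *
            ∏ p ∈ n.primeFactors, (1 + 1 / (p : ℝ))⁻¹ := by
        rw [h.primeFactors_mul, Finset.prod_union h.disjoint_primeFactors]
      rw [e1, e2, pow_add]
      push_cast
      have hm' : (m : ℝ) ≠ 0 := by exact_mod_cast hm.ne'
      have hn' : (n : ℝ) ≠ 0 := by exact_mod_cast hn.ne'
      field_simp
    · rw [if_neg (fun h3 => h2 ((sqf_mul h hm hn).mp h3).2), if_neg h2, mul_zero]
  · rw [if_neg (fun h3 => h1 ((sqf_mul h hm hn).mp h3).1), if_neg h1, zero_mul]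

theorem ffE_nonneg (hH : ∀ d : ℕ, 0 < d → 0 ≤ HH d) (d : ℕ) : 0 ≤ ffE d := by
  unfold ffE
  split_ifs with h
  · have := hH d h.1
    have h2 : (0 : ℝ) ≤ ∏ p ∈ d.primeFactors, (1 + 1 / (p : ℝ))⁻¹ :=
      Finset.prod_nonneg (fun p _ => by positivity)
    positivity
  · exact le_rfl

/-- the local sum -/
theorem local_sum (p : ℕ) (hp : p.Prime) (hH1 : HH 1 = 1)
    (hHp : HH p = 0)
    (hH : ∀ e : ℕ, HH (p ^ (e + 2)) =
      (p : ℝ) ^ (2 * (e + 1) / 3 : ℝ) - (p : ℝ) ^ (2 * e / 3 : ℝ)) :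
    (1 - 1 / (p : ℝ) ^ 2) * ∑' e : ℕ, ffE (p ^ e) = Lp p := by
  have hp0 : (0 : ℝ) < p := by exact_mod_cast hp.pos
  have hp1 : (1 : ℝ) < p := by exact_mod_cast hp.one_lt
  set q : ℝ := (p : ℝ) ^ (-(1 / 3) : ℝ) with hq
  have hq0 : 0 < q := Real.rpow_pos_of_pos hp0 _
  have hq1 : q < 1 := Real.rpow_lt_one_of_one_lt_of_neg hp1 (by norm_num)
  have hq3 : q ^ 3 = 1 / (p : ℝ) := by
    rw [hq, ← Real.rpow_natCast, ← Real.rpow_mul hp0.le]
    norm_num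
    exact Real.rpow_neg_one _
  have hqn : ∀ n : ℕ, q ^ n = (p : ℝ) ^ (-(n : ℝ) / 3) := by
    intro n
    rw [hq, ← Real.rpow_natCast, ← Real.rpow_mul hp0.le]
    congr 1
    ring
  have hterm : ∀ e : ℕ, ffE (p ^ (e + 2)) = 3 * (1 + q ^ 3)⁻¹ * (q ^ 4 - q ^ 6) * q ^ e := by
    intro e
    have hs : Sqf (p ^ (e + 2)) := by
      refine ⟨pow_pos hp.pos _, fun r hr hd => ?_⟩
      have : r = p := (Nat.prime_dvd_prime_iff_eq hr hp).mp (hr.dvd_of_dvd_pow hd)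
      subst this
      exact pow_dvd_pow r (by omega)
    have hpf : (p ^ (e + 2)).primeFactors = {p} := Nat.primeFactors_prime_pow (by omega) hp
    unfold ffE
    rw [if_pos hs, hH e]
    have hom : om (p ^ (e + 2)) = 1 := by
      unfold om
      rw [hpf, Finset.card_singleton]
    rw [hom, hpf, Finset.prod_singleton, ← hq3]
    push_cast
    have e1 : 1 / (p : ℝ) ^ (e + 2) = q ^ (3 * (e + 2)) := by
      rw [pow_mul, hq3, one_div_pow]
    have e2 : q ^ (3 * (e + 2)) * (p : ℝ) ^ (2 * ((e : ℝ) + 1) / 3) = q ^ (e + 4) := by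
      rw [hqn, hqn, ← Real.rpow_add hp0]
      congr 1
      push_cast
      ring
    have e3 : q ^ (3 * (e + 2)) * (p : ℝ) ^ (2 * (e : ℝ) / 3) = q ^ (e + 6) := by
      rw [hqn, hqn, ← Real.rpow_add hp0]
      congr 1
      push_cast
      ring
    rw [e1]
    calc 3 ^ 1 * (q ^ (3 * (e + 2)) * (1 + q ^ 3)⁻¹) *
          ((p : ℝ) ^ (2 * ((e : ℝ) + 1) / 3) - (p : ℝ) ^ (2 * (e : ℝ) / 3))
        = 3 * (1 + q ^ 3)⁻¹ * (q ^ (3 * (e + 2)) * (p : ℝ) ^ (2 * ((e : ℝ) + 1) / 3) -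
            q ^ (3 * (e + 2)) * (p : ℝ) ^ (2 * (e : ℝ) / 3)) := by ring
      _ = 3 * (1 + q ^ 3)⁻¹ * (q ^ 4 - q ^ 6) * q ^ e := by
          rw [e2, e3]
          ring
  have hgeo : HasSum (fun e : ℕ => q ^ e) (1 - q)⁻¹ := hasSum_geometric_of_lt_one hq0.le hq1
  have hs2 : HasSum (fun e : ℕ => ffE (p ^ (e + 2))) (3 * (1 + q ^ 3)⁻¹ * (q ^ 4 - q ^ 6) *
      (1 - q)⁻¹) := by
    have h1 : (fun e : ℕ => ffE (p ^ (e + 2))) =
        fun e : ℕ => 3 * (1 + q ^ 3)⁻¹ * (q ^ 4 - q ^ 6) * q ^ e := funext hterm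
    rw [h1]
    exact hgeo.mul_left _
  have hff1 : ffE (p ^ 1) = 0 := by
    unfold ffE
    split_ifs with h
    · rw [pow_one, hHp, mul_zero]
    · rfl
  have hff0 : ffE (p ^ 0) = 1 := by
    rw [pow_zero]
    exact ffE_one hH1
  have hs : HasSum (fun e : ℕ => ffE (p ^ e)) (3 * (1 + q ^ 3)⁻¹ * (q ^ 4 - q ^ 6) *
      (1 - q)⁻¹ + ∑ i ∈ Finset.range 2, ffE (p ^ i)) := (hasSum_nat_add_iff 2).mp hs2
  rw [hs.tsum_eq, Finset.sum_range_succ, Finset.sum_range_one, hff0, hff1]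
  have hL : Lp (p : ℝ) = (1 - q ^ 3) * (1 + q ^ 3 + 3 * q ^ 4 + 3 * q ^ 5) := by
    unfold Lp
    have a4 : (p : ℝ) ^ (-(4 / 3) : ℝ) = q ^ 4 := by
      rw [hqn]
      congr 1
      norm_num
    have a5 : (p : ℝ) ^ (-(5 / 3) : ℝ) = q ^ 5 := by
      rw [hqn]
      congr 1
      norm_num
    rw [a4, a5, hq3]
  rw [hL]
  have hp2 : 1 / (p : ℝ) ^ 2 = q ^ 6 := by
    have : q ^ 6 = (q ^ 3) ^ 2 := by ring
    rw [this, hq3, one_div_pow]
  rw [hp2]
  have n1 : 1 - q ≠ 0 := by linarith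
  have n2 : 1 + q ^ 3 ≠ 0 := by positivity
  field_simp
  ring

theorem cf_le (hH : ∀ d : ℕ, 0 < d → 0 ≤ HH d ∧ HH d ≤ (exc d : ℝ) ^ (2 / 3 : ℝ))
    (hK : ∀ d : ℕ, 0 < d → 0 < kap d ∧ kap d ≤ 1 / d)
    (hE : ∀ n : ℕ, 0 < n → n = rad n * exc n ∧ 0 < exc n) (d : ℕ) : 0 ≤ cf d ∧ cf d ≤ FF d := by
  unfold cf FF
  split_ifs with h
  · have hd : 0 < d := h.1
    obtain ⟨k1, k2⟩ := hK d hd
    obtain ⟨h1, h2⟩ := hH d hd
    have hd1 : (1 : ℝ) ≤ d := by exact_mod_cast hd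
    have he1 : (1 : ℝ) ≤ exc d := by exact_mod_cast (hE d hd).2
    refine ⟨by positivity, ?_⟩
    have a1 : (3 : ℝ) ^ om d ≤ 6 ^ om d := pow_le_pow_left₀ (by norm_num) (by norm_num) _
    have a2 : HH d ≤ (exc d : ℝ) ^ (2 / 3 + 1 / 24 : ℝ) :=
      h2.trans (Real.rpow_le_rpow_of_exponent_le he1 (by norm_num))
    have a3 : kap d ≤ (d : ℝ) ^ (-(1 - 1 / 24) : ℝ) := by
      refine k2.trans ?_
      rw [one_div, ← Real.rpow_neg_one]
      exact Real.rpow_le_rpow_of_exponent_le hd1 (by norm_num)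
    have b1 : (3 : ℝ) ^ om d * kap d * HH d ≤ 6 ^ om d * (d : ℝ) ^ (-(1 - 1 / 24) : ℝ) *
        (exc d : ℝ) ^ (2 / 3 + 1 / 24 : ℝ) := by
      have c1 : (3 : ℝ) ^ om d * kap d ≤ 6 ^ om d * (d : ℝ) ^ (-(1 - 1 / 24) : ℝ) :=
        mul_le_mul a1 a3 k1.le (by positivity)
      exact mul_le_mul c1 a2 h1 (by positivity)
    refine b1.trans (le_of_eq ?_)
    ring
  · exact ⟨le_rfl, le_rfl⟩

end EULAux

open EULAux in
theorem eul_thm (hKAP : S_KAP) (hHHM : S_HHM) (hSUM : S_SUM) (hEXC : S_EXC) : S_EUL := by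
  obtain ⟨hk0, _, hmult, hkap, _⟩ := hKAP
  obtain ⟨hH1, hHmul, hHp, hHpp, hHb⟩ := hHHM
  have hcf : Summable cf := Summable.of_nonneg_of_le (fun d => (cf_le hHb hkap hEXC.1 d).1)
    (fun d => (cf_le hHb hkap hEXC.1 d).2) hSUM
  have hff : Summable ffE := by
    have h1 : ffE = fun d => kap0⁻¹ * cf d := by
      funext d
      rw [cf_eq, ← mul_assoc, inv_mul_cancel₀ hk0.ne', one_mul]
    rw [h1]
    exact hcf.mul_left _
  have hnn : ∀ d, 0 ≤ ffE d := ffE_nonneg (fun d hd => (hHb d hd).1)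
  have hprod : HasProd (fun p : Nat.Primes => ∑' e : ℕ, ffE ((p : ℕ) ^ e)) (∑' n, ffE n) :=
    EulerProduct.eulerProduct_hasProd (ffE_one hH1) (fun {m n} h => ffE_mul hHmul h)
      (by simpa only [Real.norm_eq_abs, abs_of_nonneg (hnn _)] using hff) ffE_zero
  have hS : SS = kap0 * ∑' n, ffE n := by
    unfold SS
    rw [← tsum_mul_left]
    exact tsum_congr cf_eq
  refine ⟨hcf, ?_, ?_⟩
  · have h2 := hmult.hasProd.mul hprod
    rw [hS]
    have h3 : (fun p : Nat.Primes => Lp ((p : ℕ) : ℝ)) = fun p : Nat.Primes =>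
        (1 - 1 / ((p : ℕ) : ℝ) ^ 2) * ∑' e : ℕ, ffE ((p : ℕ) ^ e) := by
      funext p
      exact (local_sum p p.2 hH1 (hHp p p.2) (fun e => hHpp p e p.2)).symm
    rw [h3]
    exact h2
  · unfold SS
    refine hcf.tsum_pos (fun d => (cf_le hHb hkap hEXC.1 d).1) 1 ?_
    rw [cf_eq, ffE_one hH1, mul_one]
    exact hk0

end Pool.ASY
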